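import Pool.Agent.T2H87.K5.Main
import Pool.Agent.Results.MP_7f1c6c_co.SixHoles

/-!
# The bichromatic Maker-Breaker k-hole game: Breaker has a winning bias exactly when k is at least 6

For `k = 5` Maker wins against every constant bias `s`.  Outline of her strategy.

1. She places many points `e` (the columns) spanning pairwise different directions, chooses a
   generic direction `v`, and protects many of the lines `e + ℝ v` by a second point on them.
2. Row by row she chooses a generic point `q` and occupies `(s + 1) ^ 2` of the midpoints of `q`
   and a column.  Breaker can spoil many midpoints of a row at once only with a centre of a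
   homothety which maps the midpoints into the placed points; a counting argument on the sizes of
   the homothetic copies shows that Maker always has a column outside the copies Breaker can use.
3. For a generic large `τ` she replaces the columns by the virtual points `e - τ v` and the rows
   by the virtual points `q + τ v`; the midpoints stay on the lines joining the virtual points, no
   three of these lines are concurrent (apart from rows and columns), and all of them are empty
   apart from the midpoint.
4. She completes `s + 1` lines of many rows by a second point, then raises every column by a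
   point `c` close to its virtual point, and finally plays a point `y` close to the virtual point
   of a row which still has `s + 1` good lines.  This creates `s + 1` quadrilaterals `a, b, c, y`
   with disjoint hulls outside `y`; an empty one extends to an empty convex pentagon.
-/

namespace Pool.Agent.Results.MP_7f1c6c_co.Threshold

open Pool.Agent.R183.HoleGame

theorem makerHole_pred {k : ℕ} {M B : Finset Pt} (h : MakerHole (k + 1) M B) :
    MakerHole k M B := by
  obtain ⟨H, hHM, hHP, hHc, hHi, hHe⟩ := h
  have hne : H.Nonempty := by rw [← Finset.card_pos]; omega
  obtain ⟨x, hx⟩ := hne
  refine ⟨H.erase x, (Finset.erase_subset _ _).trans hHM, (Finset.erase_subset _ _).trans hHP,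
    ?_, ?_, ?_⟩
  · rw [Finset.card_erase_of_mem hx]; omega
  · have h1 := hHi.comp_embedding (ι' := {y // y ∈ H.erase x})
      ⟨fun y => ⟨y.1, Finset.mem_of_mem_erase y.2⟩, fun a b hab => by
        have := congrArg Subtype.val hab
        exact Subtype.ext this⟩
    exact h1
  · intro y hy hmem
    refine hHe y hy ?_
    refine interior_mono (convexHull_mono ?_) hmem
    exact_mod_cast Finset.erase_subset x H

theorem breakerWins_succ {k s : ℕ} (h : BreakerWins k s) : BreakerWins (k + 1) s := by
  obtain ⟨τ, hτ⟩ := h
  refine ⟨τ, fun x n hn => ?_⟩
  obtain ⟨h1, h2, h3⟩ := hτ x n hn
  exact ⟨h1, fun h => h2 (makerHole_pred h), fun h => h3 (makerHole_pred h)⟩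

theorem breakerWins_mono {k l s : ℕ} (hkl : k ≤ l) (h : BreakerWins k s) : BreakerWins l s := by
  induction l, hkl using Nat.le_induction with
  | base => exact h
  | succ n _ ih => exact breakerWins_succ ih

/-- For every `k ≥ 3`, Breaker has a winning strategy in the bichromatic Maker-Breaker `k`-hole
game with bias `1 : s` for some positive integer `s` if and only if `k ≥ 6`. -/
theorem result : ∀ k : ℕ, 3 ≤ k → ((∃ s : ℕ, 0 < s ∧ BreakerWins k s) ↔ 6 ≤ k) := by
  intro k _
  constructor
  · rintro ⟨s, _, hs⟩
    by_contra hk
    exact Pool.Agent.T2H87.K5.not_breaker_five s (breakerWins_mono (by omega) hs)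
  · intro hk
    exact ⟨15, by norm_num, Pool.Agent.Results.MP_7f1c6c_co.SixHoles.result k hk⟩

end Pool.Agent.Results.MP_7f1c6c_co.Threshold
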